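import Pool.Agent.Helper46.SP.CoreSpec

/-!
# MP_913f70_lc, module A17a: the three-amalgam lemma
-/

open Cardinal Set
open scoped Pointwise

namespace Pool.Agent.Helper78.SP

open Pool.Agent.Helper46.SP

variable {Q : Par} {S : CodeSys Q}

/-! ### Forcing equality -/

theorem star_feMono {𝒞 : Set (RC S)} {T T' : Set (RN Q × P0 Q × RC S)} {p p' : P0 Q}
    {c c' : RC S} (h : FE 𝒞 T T' p c) (hp : p' ≤ p) (hc : c ⊆ c') : FE 𝒞 T T' p' c' :=
  fun q hq d hd hcd x => h q (le_trans hq hp) d hd (hc.trans hcd) x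

theorem star_feSymm {𝒞 : Set (RC S)} {T T' : Set (RN Q × P0 Q × RC S)} {p : P0 Q}
    {c : RC S} (h : FE 𝒞 T T' p c) : FE 𝒞 T' T p c :=
  fun q hq d hd hcd x => (h q hq d hd hcd x).symm

theorem star_feTrans {𝒞 : Set (RC S)} {T T' T'' : Set (RN Q × P0 Q × RC S)} {p : P0 Q}
    {c : RC S} (h : FE 𝒞 T T' p c) (h' : FE 𝒞 T' T'' p c) : FE 𝒞 T T'' p c :=
  fun q hq d hd hcd x => (h q hq d hd hcd x).trans (h' q hq d hd hcd x)

theorem star_feAct (hG : GFacts S) {ζ : Stg Q} {A B : S.U} {p : P0 Q} {c : RC S} (g : Grp Q)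
    (h : FE (CC ζ) (S.G A) (S.G B) p c) :
    FE (CC ζ) (S.G (g • A)) (S.G (g • B)) (g • p) (g • c) := by
  rw [S.G_smul, S.G_smul]
  exact hG.fe ζ g _ _ p c h

theorem star_feDense (hR : RFacts S) {ζ : Stg Q} {A B : S.U} {p : P0 Q} {c : RC S}
    (hc : c ∈ CC ζ)
    (h : ∀ p' ≤ p, ∀ c' ∈ (CC ζ : Set (RC S)), c ⊆ c' → ∃ p'' ≤ p', ∃ c'' ∈ (CC ζ : Set (RC S)),
      c' ⊆ c'' ∧ FE (CC ζ) (S.G A) (S.G B) p'' c'') :
    FE (CC ζ) (S.G A) (S.G B) p c := by
  have := (hR.regFE ζ (S.G A) (S.G B)).dense p c hc (by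
    intro p' hp' c' hc' hcc'
    obtain ⟨p'', hp'', c'', hc'', h1, h2⟩ := h p' hp' c' hc' hcc'
    exact ⟨p'', hp'', c'', hc'', h1, hc'', h2⟩)
  exact this.2

/-! ### Sets of indices -/

theorem star_smul_below (g : Grp Q) (ζ : Stg Q) {Y : Set (Idx Q)} (h : Y ⊆ below ζ) :
    g • Y ⊆ below ζ := by
  rintro _ ⟨i, hi, rfl⟩ ξ hξ
  exact h hi ξ hξ

theorem star_mk_smul (g : Grp Q) (Y : Set (Idx Q)) : #(g • Y : Set (Idx Q)) ≤ #Y :=
  Cardinal.mk_image_le

theorem star_aleph (ζ : Q.Lev) : (ℵ₀ : Cardinal.{0}) ≤ Q.K :=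
  le_trans (le_trans (Cardinal.cantor ℵ₀).le (Q.cont_le ζ)) (Q.κ_le_K ζ)

theorem star_fixes_smul {g : Grp Q} {Z : Set (Idx Q)} (h : Fixes g Z) : g • Z = Z := by
  ext i
  constructor
  · rintro ⟨j, hj, rfl⟩
    show g • j ∈ Z
    rw [h j hj]
    exact hj
  · intro hi
    exact ⟨i, hi, h i hi⟩

theorem star_fixes_inv {g : Grp Q} {Z : Set (Idx Q)} (h : Fixes g Z) : Fixes g⁻¹ Z := by
  intro i hi
  rw [inv_smul_eq_iff]
  exact (h i hi).symm

/-! ### Amalgamation of two and three closed conditions -/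

theorem star_MA2 {ζ : Stg Q} (h : MA S ζ) {d₁ d₂ : RC S} {Y₁ Y₂ : Set (Idx Q)}
    (h1 : Closed d₁ Y₁) (h2 : Closed d₂ Y₂) (b1 : Y₁ ⊆ below ζ) (b2 : Y₂ ⊆ below ζ)
    (h12 : ∃ c : RC S, c ⊆ d₁ ∧ c ⊆ d₂ ∧ Closed c (Y₁ ∩ Y₂)) :
    d₁ ∪ d₂ ∈ CC ζ := by
  have := h Bool (fun b => if b then d₁ else d₂) (fun b => if b then Y₁ else Y₂)
    (by rintro (_ | _) <;> simpa) (by rintro (_ | _) <;> simpa) (by
      obtain ⟨c, hc1, hc2, hc3⟩ := h12
      rintro (_ | _) (_ | _) hij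
      · exact absurd rfl hij
      · exact ⟨c, by simpa using hc2, by simpa using hc1, by
          simpa [Set.inter_comm] using hc3⟩
      · exact ⟨c, by simpa using hc1, by simpa using hc2, by simpa using hc3⟩
      · exact absurd rfl hij)
  have he : (⋃ b : Bool, (fun b : Bool => if b then d₁ else d₂) b) = d₁ ∪ d₂ := by
    ext t
    simp only [Set.mem_iUnion, Bool.exists_bool, Set.mem_union]
    constructor
    · rintro (h | h)
      · right; simpa using h
      · left; simpa using h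
    · rintro (h | h)
      · right; simpa using h
      · left; simpa using h
  rw [he] at this
  exact this

theorem star_MA3 {ζ : Stg Q} (h : MA S ζ) {d₀ d₁ d₂ : RC S} {Y₀ Y₁ Y₂ : Set (Idx Q)}
    (h0 : Closed d₀ Y₀) (h1 : Closed d₁ Y₁) (h2 : Closed d₂ Y₂) (b0 : Y₀ ⊆ below ζ)
    (b1 : Y₁ ⊆ below ζ) (b2 : Y₂ ⊆ below ζ)
    (h01 : ∃ c : RC S, c ⊆ d₀ ∧ c ⊆ d₁ ∧ Closed c (Y₀ ∩ Y₁))
    (h02 : ∃ c : RC S, c ⊆ d₀ ∧ c ⊆ d₂ ∧ Closed c (Y₀ ∩ Y₂))
    (h12 : ∃ c : RC S, c ⊆ d₁ ∧ c ⊆ d₂ ∧ Closed c (Y₁ ∩ Y₂)) :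
    d₀ ∪ d₁ ∪ d₂ ∈ CC ζ := by
  have hs : ∀ {d d' : RC S} {Y Y' : Set (Idx Q)},
      (∃ c : RC S, c ⊆ d ∧ c ⊆ d' ∧ Closed c (Y ∩ Y')) →
      (∃ c : RC S, c ⊆ d' ∧ c ⊆ d ∧ Closed c (Y' ∩ Y)) := by
    rintro d d' Y Y' ⟨c, hc1, hc2, hc3⟩
    exact ⟨c, hc2, hc1, by rwa [Set.inter_comm]⟩
  have := h (Fin 3) ![d₀, d₁, d₂] ![Y₀, Y₁, Y₂]
    (by
      intro i
      fin_cases i
      · exact h0
      · exact h1
      · exact h2)
    (by
      intro i
      fin_cases i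
      · exact b0
      · exact b1
      · exact b2)
    (by
      intro i j hij
      fin_cases i <;> fin_cases j
      · exact absurd rfl hij
      · exact h01
      · exact h02
      · exact hs h01
      · exact absurd rfl hij
      · exact h12
      · exact hs h02
      · exact hs h12
      · exact absurd rfl hij)
  have he : (⋃ i : Fin 3, (![d₀, d₁, d₂] : Fin 3 → RC S) i) = d₀ ∪ d₁ ∪ d₂ := by
    ext t
    simp only [Set.mem_iUnion, Fin.exists_fin_succ, Set.mem_union]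
    simp [or_assoc]
  rw [he] at this
  exact this

/-! ### Action facts -/

theorem star_coverFix (hO : OFacts S) {g : Grp Q} {c : RC S} {Z : Set (Idx Q)} (hc : COver c Z)
    (hg : Fixes g Z) : g • c = c := by
  have := hO.coverCongr g 1 c Z hc (fun i hi => by rw [hg i hi, one_smul])
  rwa [one_smul] at this

theorem star_uoverFix (hO : OFacts S) {g : Grp Q} {A : S.U} {Z : Set (Idx Q)} (hc : UOver A Z)
    (hg : Fixes g Z) : g • A = A := by
  have := hO.uoverCongr g 1 A Z hc (fun i hi => by rw [hg i hi, one_smul])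
  rwa [one_smul] at this

/-- restriction of a moved condition -/
theorem star_resSmul (hP : P0Facts Q) {g : Grp Q} {p : P0 Q} {Y : Set (Idx Q)} (h : p.res Y = p) :
    (g • p).res (g • Y) = g • p := by
  rw [hP.smul_res, h]

/-- `q ≤ p` implies that `q` and `g • p` are compatible if the common part is fixed -/
theorem star_compat (hP : P0Facts Q) {q r : P0 Q} {W V U : Set (Idx Q)}
    (hq : q.res W = q) (hr : r.res V = r) (hWV : W ∩ V = U) {s : P0 Q} (hs : q.res U ≤ s)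
    (hrU : r.res U = s) : q.Compat r := by
  apply hP.compat_over q r W V hq hr
  rw [hWV, hP.compat_iff]
  exact ⟨q.res U, le_rfl, by rw [hrU]; exact hs⟩

/-! ### Step 1 -/

theorem star_step1 (hR : RFacts S) (hG : GFacts S) (hO : OFacts S) (hD : ST_dense)
    (hPm : PermFacts Q) (hP : P0Facts Q) (ζ : Q.Lev) (hMA : MA S (ζ : Stg Q))
    (hRes : Res S (ζ : Stg Q))
    (e : RC S) (Y Z₁ Z₂ : Set (Idx Q)) (p : P0 Q) (A A' : S.U) (he : Closed e Y)
    (hY : Y ⊆ below (ζ : Stg Q)) (hp : p.res Y = p) (h1 : Z₁ ⊆ Y) (h2 : Z₂ ⊆ Y)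
    (hd1 : DClosed e Z₁) (hd2 : DClosed e Z₂)
    (hA : UOver A Z₁) (hA' : UOver A' Z₂)
    (hFE : FE (CC (ζ : Stg Q)) (S.G A) (S.G A') p e)
    (s : Grp Q) (hs : Fixes s (Z₁ ∩ Z₂)) (hsZ : Z₁ ∩ s • Z₁ = Z₁ ∩ Z₂)
    (t : P0 Q) (c : RC S) (hc : c ∈ (CC (ζ : Stg Q) : Set (RC S)))
    (ht : t ≤ p) (hec : e ⊆ c) (hts : t ≤ s • p) (hsec : s • e ⊆ c) :
    FE (CC (ζ : Stg Q)) (S.G A) (S.G (s • A)) t c := by
  apply star_feDense hR hc
  intro q hq c' hc' hcc'
  obtain ⟨z, hzf, hzb, hzq⟩ := hP.fin_supp q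
  have haK := star_aleph (Q := Q) ζ
  -- the closed condition `(d, W)`
  obtain ⟨d, W, hdW, hcd, hdζ, hYW, hWb⟩ := hD Q S (ζ : Stg Q) c' (Y ∪ s • Y ∪ z) hc'
    (Set.union_subset (Set.union_subset hY (star_smul_below s _ hY)) (hzb _))
    (by
      refine (Cardinal.mk_union_le _ _).trans (Cardinal.add_le_of_le haK ?_ ?_)
      · refine (Cardinal.mk_union_le _ _).trans (Cardinal.add_le_of_le haK he.card ?_)
        exact (star_mk_smul s Y).trans he.card
      · exact (hzf.lt_aleph0.le).trans haK)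
  have hYW1 : Y ⊆ W := fun i hi => hYW (Or.inl (Or.inl hi))
  have hYW2 : s • Y ⊆ W := fun i hi => hYW (Or.inl (Or.inr hi))
  have hqW : q.res W = q := hP.res_eq_of q z W hzq (fun i hi => hYW (Or.inr hi))
  have hqp : q ≤ p := le_trans hq ht
  have hqsp : q ≤ s • p := le_trans hq hts
  have hed : e ⊆ d := hec.trans (hcc'.trans hcd)
  have hsed : s • e ⊆ d := hsec.trans (hcc'.trans hcd)
  -- the permutation `ρ`
  obtain ⟨ρ, hρ1, hρ2⟩ := hPm.fresh Y W Z₁ he.card hdW.card h1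
  -- the permutation `ρ'`
  have hsY1 : s • Z₁ ⊆ s • Y := Set.smul_set_mono h1
  obtain ⟨ρ₀, hρ₀1, hρ₀2⟩ := hPm.fresh (s • Y) (W ∪ ρ • Y) (s • Z₁)
    ((star_mk_smul s Y).trans he.card)
    ((Cardinal.mk_union_le _ _).trans (Cardinal.add_le_of_le haK hdW.card
      ((star_mk_smul ρ Y).trans he.card))) hsY1
  obtain ⟨ρ', hρ'⟩ : ∃ ρ' : Grp Q, (∀ i ∈ Z₁, ρ' • s • i = s • i) ∧
      (∀ i ∈ Z₂, i ∉ Z₁ → ρ' • s • i = ρ • i) ∧
      (∀ i ∈ Y, i ∉ Z₁ → i ∉ Z₂ → ρ' • s • i ∉ W ∪ ρ • Y) := by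
    classical
    obtain ⟨g, hg⟩ := hPm.ext (s • Y)
      (fun j => if s⁻¹ • j ∈ Z₁ then j else if s⁻¹ • j ∈ Z₂ then ρ • s⁻¹ • j else ρ₀ • j)
      ((star_mk_smul s Y).trans he.card)
      (by
        intro j _
        by_cases h : s⁻¹ • j ∈ Z₁
        · simp only [if_pos h]
        · by_cases h' : s⁻¹ • j ∈ Z₂
          · simp only [if_neg h, if_pos h']
            rfl
          · simp only [if_neg h, if_neg h']
            rfl)
      (by
        rintro _ ⟨i, hi, rfl⟩ _ ⟨j, hj, rfl⟩ hij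
        simp only [inv_smul_smul] at hij
        by_cases hi1 : i ∈ Z₁
        · rw [if_pos hi1] at hij
          by_cases hj1 : j ∈ Z₁
          · rwa [if_pos hj1] at hij
          · exfalso
            rw [if_neg hj1] at hij
            have hW : s • i ∈ W := hYW2 (Set.smul_mem_smul_set hi)
            by_cases hj2 : j ∈ Z₂
            · rw [if_pos hj2] at hij
              apply hρ2 j hj hj1
              rw [← hij]
              exact hW
            · rw [if_neg hj2] at hij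
              apply hρ₀2 (s • j) (Set.smul_mem_smul_set hj)
                (fun h => hj1 (Set.smul_mem_smul_set_iff.1 h))
              rw [← hij]
              exact Or.inl hW
        · rw [if_neg hi1] at hij
          by_cases hi2 : i ∈ Z₂
          · rw [if_pos hi2] at hij
            by_cases hj1 : j ∈ Z₁
            · exfalso
              rw [if_pos hj1] at hij
              apply hρ2 i hi hi1
              rw [hij]
              exact hYW2 (Set.smul_mem_smul_set hj)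
            · rw [if_neg hj1] at hij
              by_cases hj2 : j ∈ Z₂
              · rw [if_pos hj2] at hij
                rw [smul_left_cancel ρ hij]
              · exfalso
                rw [if_neg hj2] at hij
                apply hρ₀2 (s • j) (Set.smul_mem_smul_set hj)
                  (fun h => hj1 (Set.smul_mem_smul_set_iff.1 h))
                rw [← hij]
                exact Or.inr (Set.smul_mem_smul_set hi)
          · rw [if_neg hi2] at hij
            have key : ρ₀ • s • i ∉ W ∪ ρ • Y := hρ₀2 (s • i) (Set.smul_mem_smul_set hi)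
                  (fun h => hi1 (Set.smul_mem_smul_set_iff.1 h))
            by_cases hj1 : j ∈ Z₁
            · exfalso
              rw [if_pos hj1] at hij
              apply key
              rw [hij]
              exact Or.inl (hYW2 (Set.smul_mem_smul_set hj))
            · rw [if_neg hj1] at hij
              by_cases hj2 : j ∈ Z₂
              · exfalso
                rw [if_pos hj2] at hij
                apply key
                rw [hij]
                exact Or.inr (Set.smul_mem_smul_set hj)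
              · rw [if_neg hj2] at hij
                exact smul_left_cancel ρ₀ hij)
    refine ⟨g, ?_, ?_, ?_⟩
    · intro i hi
      rw [hg (s • i) (Set.smul_mem_smul_set (h1 hi))]
      simp only [inv_smul_smul, if_pos hi]
    · intro i hi hi1
      rw [hg (s • i) (Set.smul_mem_smul_set (h2 hi))]
      simp only [inv_smul_smul, if_pos hi, if_neg hi1]
    · intro i hi hi1 hi2
      rw [hg (s • i) (Set.smul_mem_smul_set hi)]
      simp only [inv_smul_smul, if_neg hi2, if_neg hi1]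
      exact hρ₀2 (s • i) (Set.smul_mem_smul_set hi)
        (fun h => hi1 (Set.smul_mem_smul_set_iff.1 h))
  obtain ⟨hρ'1, hρ'2, hρ'3⟩ := hρ'
  have hρ'f : Fixes ρ' (s • Z₁) := by
    rintro _ ⟨i, hi, rfl⟩
    exact hρ'1 i hi
  -- on `Z₂` the permutations `ρ' s` and `ρ` agree
  have hagree : ∀ i ∈ Z₂, ρ • i = (ρ' * s) • i := by
    intro i hi
    rw [mul_smul]
    by_cases hi1 : i ∈ Z₁
    · rw [hρ1 i hi1, hρ'1 i hi1, hs i ⟨hi1, hi⟩]
    · rw [hρ'2 i hi hi1]
  -- the intersections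
  have hI1 : W ∩ ρ • Y = Z₁ := by
    ext j
    constructor
    · rintro ⟨hjW, i, hi, rfl⟩
      by_cases hi1 : i ∈ Z₁
      · show ρ • i ∈ Z₁
        rw [hρ1 i hi1]
        exact hi1
      · exact absurd hjW (hρ2 i hi hi1)
    · intro hj
      exact ⟨hYW1 (h1 hj), j, h1 hj, hρ1 j hj⟩
  have hI2 : W ∩ (ρ' * s) • Y = s • Z₁ := by
    ext j
    constructor
    · rintro ⟨hjW, i, hi, rfl⟩
      by_cases hi1 : i ∈ Z₁
      · show (ρ' * s) • i ∈ s • Z₁
        rw [mul_smul, hρ'1 i hi1]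
        exact Set.smul_mem_smul_set hi1
      · exfalso
        have hjW' : (ρ' * s) • i ∈ W := hjW
        rw [mul_smul] at hjW'
        by_cases hi2 : i ∈ Z₂
        · rw [hρ'2 i hi2 hi1] at hjW'
          exact hρ2 i hi hi1 hjW'
        · exact hρ'3 i hi hi1 hi2 (Or.inl hjW')
    · rintro ⟨i, hi, rfl⟩
      refine ⟨hYW2 (Set.smul_mem_smul_set (h1 hi)), i, h1 hi, ?_⟩
      show (ρ' * s) • i = s • i
      rw [mul_smul, hρ'1 i hi]
  have hI3 : ρ • Y ∩ (ρ' * s) • Y = ρ • Z₂ := by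
    ext j
    constructor
    · rintro ⟨⟨k, hk, hkj⟩, i, hi, rfl⟩
      have hkj' : ρ • k = (ρ' * s) • i := hkj
      show (ρ' * s) • i ∈ ρ • Z₂
      by_cases hi2 : i ∈ Z₂
      · rw [← hagree i hi2]
        exact Set.smul_mem_smul_set hi2
      · by_cases hi1 : i ∈ Z₁
        · rw [mul_smul, hρ'1 i hi1] at hkj' ⊢
          by_cases hk1 : k ∈ Z₁
          · rw [hρ1 k hk1] at hkj'
            have : k ∈ Z₁ ∩ s • Z₁ := ⟨hk1, by rw [hkj']; exact Set.smul_mem_smul_set hi1⟩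
            rw [hsZ] at this
            rw [← hkj', ← hρ1 k hk1]
            exact Set.smul_mem_smul_set this.2
          · exfalso
            apply hρ2 k hk hk1
            rw [hkj']
            exact hYW2 (Set.smul_mem_smul_set hi)
        · exfalso
          apply hρ'3 i hi hi1 hi2
          right
          rw [← mul_smul, ← hkj']
          exact Set.smul_mem_smul_set hk
    · rintro ⟨i, hi, rfl⟩
      refine ⟨Set.smul_mem_smul_set (h2 hi), i, h2 hi, ?_⟩
      exact (hagree i hi).symm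
  -- the common parts
  have hf1 := hRes e Y he hY Z₁ h1 hd1
  have hf2 := hRes e Y he hY Z₂ h2 hd2
  have hcl1 : Closed (ρ • e) (ρ • Y) := hO.closedSmul ρ e Y he
  have hcl2 : Closed ((ρ' * s) • e) ((ρ' * s) • Y) := hO.closedSmul (ρ' * s) e Y he
  have hf1s : Closed (s • rst e Z₁) (s • Z₁) := hO.closedSmul s _ _ hf1
  have hf2ρ : Closed (ρ • rst e Z₂) (ρ • Z₂) := hO.closedSmul ρ _ _ hf2
  have heq1 : ρ • rst e Z₁ = rst e Z₁ := star_coverFix hO hf1.ovr hρ1
  have heq2 : ρ' • s • rst e Z₁ = s • rst e Z₁ := star_coverFix hO hf1s.ovr hρ'f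
  have heq3 : ρ • rst e Z₂ = (ρ' * s) • rst e Z₂ := hO.coverCongr ρ (ρ' * s) _ _ hf2.ovr hagree
  have hmem := star_MA3 hMA hdW hcl1 hcl2 hWb (star_smul_below _ _ hY) (star_smul_below _ _ hY)
    ⟨rst e Z₁, (hO.rstSub e Z₁).trans hed, by
      rw [← heq1]
      exact Set.smul_set_mono (hO.rstSub e Z₁), by rwa [hI1]⟩
    ⟨s • rst e Z₁, (Set.smul_set_mono (hO.rstSub e Z₁)).trans hsed, by
      rw [← heq2, ← mul_smul]
      exact Set.smul_set_mono (hO.rstSub e Z₁), by rwa [hI2]⟩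
    ⟨ρ • rst e Z₂, Set.smul_set_mono (hO.rstSub e Z₂), by
      rw [heq3]
      exact Set.smul_set_mono (hO.rstSub e Z₂), by rwa [hI3]⟩
  -- the Cohen part
  have hc1 : q.Compat (ρ • p) := by
    apply star_compat hP hqW (star_resSmul hP hp) hI1 (s := p.res Z₁)
      (hP.res_mono _ _ _ hqp)
    have h := hP.smul_res ρ p Z₁
    rw [star_fixes_smul hρ1] at h
    rw [h]
    have h' := hP.smul_congr ρ 1 (p.res Z₁) Z₁ (by rw [hP.res_res, Set.inter_self])
      (fun i hi => by rw [hρ1 i hi, one_smul])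
    rwa [one_smul] at h'
  have hc2 : q.Compat ((ρ' * s) • p) := by
    apply star_compat hP hqW (star_resSmul hP hp) hI2 (s := (s • p).res (s • Z₁))
      (hP.res_mono _ _ _ hqsp)
    have h := hP.smul_res ρ' (s • p) (s • Z₁)
    rw [star_fixes_smul hρ'f] at h
    rw [mul_smul, h]
    have h' := hP.smul_congr ρ' 1 ((s • p).res (s • Z₁)) (s • Z₁)
      (by rw [hP.res_res, Set.inter_self])
      (fun i hi => by rw [hρ'f i hi, one_smul])
    rwa [one_smul] at h'
  have hc3 : (ρ • p).Compat ((ρ' * s) • p) := by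
    apply star_compat hP (star_resSmul hP hp) (star_resSmul hP hp) hI3
      (s := (ρ • p).res (ρ • Z₂)) le_rfl
    have h := hP.smul_res ρ p Z₂
    have h'' := hP.smul_res (ρ' * s) p Z₂
    have hZ : ρ • Z₂ = (ρ' * s) • Z₂ := by
      ext j
      constructor
      · rintro ⟨i, hi, rfl⟩
        exact ⟨i, hi, (hagree i hi).symm⟩
      · rintro ⟨i, hi, rfl⟩
        exact ⟨i, hi, hagree i hi⟩
    rw [h, hZ, h'']
    exact (hP.smul_congr ρ (ρ' * s) (p.res Z₂) Z₂ (by rw [hP.res_res, Set.inter_self])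
      hagree).symm
  obtain ⟨r, hr1, hr2, hr3⟩ := hP.compat3 _ _ _ hc1 hc2 hc3
  refine ⟨r, hr1, _, hmem, fun x hx => Or.inl (Or.inl (hcd hx)), ?_⟩
  -- forced equalities
  have hE1 := star_feAct hG ρ hFE
  rw [star_uoverFix hO hA hρ1] at hE1
  have hE2 := star_feAct hG (ρ' * s) hFE
  have hA2 : (ρ' * s) • A = s • A := by
    rw [mul_smul]
    exact star_uoverFix hO (hO.uoverSmul s A Z₁ hA) hρ'f
  have hA3 : (ρ' * s) • A' = ρ • A' := (hO.uoverCongr ρ (ρ' * s) A' Z₂ hA' hagree).symm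
  rw [hA2, hA3] at hE2
  exact star_feTrans (star_feMono hE1 hr2 (fun x hx => Or.inl (Or.inr hx)))
    (star_feSymm (star_feMono hE2 hr3 (fun x hx => Or.inr hx)))

/-! ### Step 2 -/

theorem star_step2 (hR : RFacts S) (hG : GFacts S) (hO : OFacts S) (hD : ST_dense)
    (hPm : PermFacts Q) (hP : P0Facts Q) (ζ : Q.Lev) (hMA : MA S (ζ : Stg Q))
    (hRes : Res S (ζ : Stg Q)) : Star S ζ := by
  intro e Y Z₁ Z₂ p A A' he hY hp h1 h2 hd1 hd2 _ _ hA hA' hFE s hs t c hc ht hec hts hsec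
  apply star_feDense hR hc
  intro q hq c' hc' hcc'
  obtain ⟨z, hzf, hzb, hzq⟩ := hP.fin_supp q
  have haK := star_aleph (Q := Q) ζ
  obtain ⟨d, W, hdW, hcd, hdζ, hYW, hWb⟩ := hD Q S (ζ : Stg Q) c' (Y ∪ s • Y ∪ z) hc'
    (Set.union_subset (Set.union_subset hY (star_smul_below s _ hY)) (hzb _))
    (by
      refine (Cardinal.mk_union_le _ _).trans (Cardinal.add_le_of_le haK ?_ ?_)
      · refine (Cardinal.mk_union_le _ _).trans (Cardinal.add_le_of_le haK he.card ?_)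
        exact (star_mk_smul s Y).trans he.card
      · exact (hzf.lt_aleph0.le).trans haK)
  have hYW1 : Y ⊆ W := fun i hi => hYW (Or.inl (Or.inl hi))
  have hYW2 : s • Y ⊆ W := fun i hi => hYW (Or.inl (Or.inr hi))
  have hqW : q.res W = q := hP.res_eq_of q z W hzq (fun i hi => hYW (Or.inr hi))
  have hqp : q ≤ p := le_trans hq ht
  have hqsp : q ≤ s • p := le_trans hq hts
  have hed : e ⊆ d := hec.trans (hcc'.trans hcd)
  have hsed : s • e ⊆ d := hsec.trans (hcc'.trans hcd)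
  have h0 : Z₁ ∩ Z₂ ⊆ Y := fun i hi => h1 hi.1
  obtain ⟨τ, hτ1, hτ2⟩ := hPm.fresh Y W (Z₁ ∩ Z₂) he.card hdW.card h0
  have hI : W ∩ τ • Y = Z₁ ∩ Z₂ := by
    ext j
    constructor
    · rintro ⟨hjW, i, hi, rfl⟩
      by_cases hi1 : i ∈ Z₁ ∩ Z₂
      · show τ • i ∈ Z₁ ∩ Z₂
        rw [hτ1 i hi1]
        exact hi1
      · exact absurd hjW (hτ2 i hi hi1)
    · intro hj
      exact ⟨hYW1 (h0 hj), j, h0 hj, hτ1 j hj⟩
  have hf0 := hRes e Y he hY (Z₁ ∩ Z₂) h0 (hO.dclosedInter e Z₁ Z₂ hd1 hd2)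
  have hclτ : Closed (τ • e) (τ • Y) := hO.closedSmul τ e Y he
  have heq : τ • rst e (Z₁ ∩ Z₂) = rst e (Z₁ ∩ Z₂) := star_coverFix hO hf0.ovr hτ1
  have hmem := star_MA2 hMA hdW hclτ hWb (star_smul_below _ _ hY)
    ⟨rst e (Z₁ ∩ Z₂), (hO.rstSub e _).trans hed, by
      rw [← heq]
      exact Set.smul_set_mono (hO.rstSub e _), by rwa [hI]⟩
  have hcomp : q.Compat (τ • p) := by
    apply star_compat hP hqW (star_resSmul hP hp) hI (s := p.res (Z₁ ∩ Z₂))
      (hP.res_mono _ _ _ hqp)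
    have h := hP.smul_res τ p (Z₁ ∩ Z₂)
    rw [star_fixes_smul hτ1] at h
    rw [h]
    have h' := hP.smul_congr τ 1 (p.res (Z₁ ∩ Z₂)) (Z₁ ∩ Z₂)
      (by rw [hP.res_res, Set.inter_self]) (fun i hi => by rw [hτ1 i hi, one_smul])
    rwa [one_smul] at h'
  obtain ⟨r, hr1, hr2⟩ := (hP.compat_iff _ _).1 hcomp
  refine ⟨r, hr1, _, hmem, fun x hx => Or.inl (hcd hx), ?_⟩
  have hτe : τ • e ⊆ d ∪ τ • e := fun x hx => Or.inr hx
  -- step 1 for `τ`
  have hE1 : FE (CC (ζ : Stg Q)) (S.G A) (S.G (τ • A)) r (d ∪ τ • e) := by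
    apply star_step1 hR hG hO hD hPm hP ζ hMA hRes e Y Z₁ Z₂ p A A' he hY hp h1 h2 hd1 hd2
      hA hA' hFE τ hτ1 ?_ r _ hmem (le_trans hr1 hqp) (fun x hx => Or.inl (hed hx)) hr2 hτe
    ext j
    constructor
    · rintro ⟨hj1, i, hi, rfl⟩
      by_cases hi0 : i ∈ Z₁ ∩ Z₂
      · show τ • i ∈ Z₁ ∩ Z₂
        rw [hτ1 i hi0]
        exact hi0
      · exact absurd (hYW1 (h1 hj1)) (hτ2 i (h1 hi) hi0)
    · intro hj
      exact ⟨hj.1, j, hj.1, hτ1 j hj⟩
  -- step 1 for `s⁻¹ τ`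
  have hsinv := star_fixes_inv hs
  have hE2 : FE (CC (ζ : Stg Q)) (S.G A) (S.G ((s⁻¹ * τ) • A)) (s⁻¹ • r)
      (s⁻¹ • (d ∪ τ • e)) := by
    apply star_step1 hR hG hO hD hPm hP ζ hMA hRes e Y Z₁ Z₂ p A A' he hY hp h1 h2 hd1 hd2
      hA hA' hFE (s⁻¹ * τ) ?_ ?_ (s⁻¹ • r) _ (hG.cc _ _ _ hmem) ?_ ?_ ?_ ?_
    · intro i hi
      rw [mul_smul, hτ1 i hi, hsinv i hi]
    · ext j
      constructor
      · rintro ⟨hj1, i, hi, rfl⟩
        by_cases hi0 : i ∈ Z₁ ∩ Z₂
        · show (s⁻¹ * τ) • i ∈ Z₁ ∩ Z₂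
          rw [mul_smul, hτ1 i hi0, hsinv i hi0]
          exact hi0
        · exfalso
          apply hτ2 i (h1 hi) hi0
          have hj2 : (s⁻¹ * τ) • i ∈ Z₁ := hj1
          have : s • (s⁻¹ * τ) • i ∈ s • Y := Set.smul_mem_smul_set (h1 hj2)
          rw [mul_smul, smul_inv_smul] at this
          exact hYW2 this
      · intro hj
        refine ⟨hj.1, j, hj.1, ?_⟩
        show (s⁻¹ * τ) • j = j
        rw [mul_smul, hτ1 j hj, hsinv j hj]
    · have := P0.smul_le s⁻¹ _ _ (le_trans hr1 hqsp)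
      rwa [inv_smul_smul] at this
    · rw [Set.subset_smul_set_iff, inv_inv]
      exact fun x hx => Or.inl (hsed hx)
    · rw [mul_smul]
      exact P0.smul_le _ _ _ hr2
    · rw [mul_smul]
      exact Set.smul_set_mono hτe
  have hE3 := star_feAct hG s hE2
  rw [smul_inv_smul, smul_inv_smul, mul_smul, smul_inv_smul] at hE3
  exact star_feTrans hE1 (star_feSymm hE3)

/-- (A17a) -/
theorem st_Star (hR : ST_rfacts) (hG : ST_gfacts) (hO : ST_ofacts) (hD : ST_dense)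
    (hPm : ST_perm) (hP : ST_P0) : ST_Star :=
  fun Q S ζ hMA hRes => star_step2 (hR Q S) (hG Q S) (hO Q S) hD (hPm Q) (hP Q) ζ hMA hRes

end Pool.Agent.Helper78.SP
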